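import Mathlib

/-!
# Riemannian tori, their lifted geodesics, and ergodicity (MP_861054_an)

A Riemannian torus is `ℂ / (ℤ w₁ + ℤ w₂)` with the metric `e^{2u}|dz|²`, `u` smooth and periodic (by
uniformization every smooth Riemannian metric on the torus is of this form). The plane `ℂ` is its
universal cover, with the lifted metric; unit tangent vectors of the cover are given by `v = (z, θ)`:
the vector `e^{-u(z)} e^{iθ}` at the point `z`.
-/

set_option autoImplicit false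

namespace Pool.Agent.ET

open MeasureTheory Filter Topology Set
open scoped ContDiff ENNReal

noncomputable section

/-- A smooth Riemannian torus `ℂ / (ℤ w₁ + ℤ w₂)` with the metric `e^{2u}|dz|²`. -/
structure Torus where
  w₁ : ℂ
  w₂ : ℂ
  indep : LinearIndependent ℝ ![w₁, w₂]
  u : ℂ → ℝ
  smooth : ContDiff ℝ ∞ u
  per₁ : ∀ z, u (z + w₁) = u z
  per₂ : ∀ z, u (z + w₂) = u z

namespace Torus

variable (S : Torus)

/-- the Euclidean gradient of `u` -/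
def grad (z : ℂ) : ℂ := (fderiv ℝ S.u z 1 : ℂ) + (fderiv ℝ S.u z Complex.I : ℂ) * Complex.I

/-- A unit speed geodesic of the plane with the metric `e^{2u}|dz|²` (defined for all times):
`e^{u(γ)}|γ'| = 1` and the geodesic equation `γ'' = -2 du(γ')γ' + |γ'|² grad u`. -/
structure IsGeodesic (γ : ℝ → ℂ) : Prop where
  smooth : ContDiff ℝ ∞ γ
  unit : ∀ t, Real.exp (S.u (γ t)) * ‖deriv γ t‖ = 1
  eq : ∀ t, deriv (deriv γ) t =
    -2 * (fderiv ℝ S.u (γ t) (deriv γ t) : ℂ) * deriv γ t + (‖deriv γ t‖ ^ 2 : ℝ) * S.grad (γ t)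

/-- at the time `t` the curve `γ` passes with the unit tangent vector `v` -/
def At (γ : ℝ → ℂ) (t : ℝ) (v : ℂ × ℝ) : Prop :=
  γ t = v.1 ∧ deriv γ t = (Real.exp (-S.u v.1) : ℂ) * Complex.exp (v.2 * Complex.I)

/-- The geodesic flow of the torus is ergodic for the Liouville measure. Sets of unit tangent vectors
of the torus are given by their preimages in `ℂ × ℝ`: invariant under the periods and, together with
the invariance under the geodesic flow, under `θ ↦ θ + 2π` (take `s = t`); the null sets of the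
Liouville measure `e^{2u} dx dy dθ` are those of Lebesgue measure. -/
def Ergodic : Prop :=
  ∀ A : Set (ℂ × ℝ), MeasurableSet A →
    (∀ v : ℂ × ℝ, (v.1 + S.w₁, v.2) ∈ A ↔ v ∈ A) →
    (∀ v : ℂ × ℝ, (v.1 + S.w₂, v.2) ∈ A ↔ v ∈ A) →
    (∀ γ, S.IsGeodesic γ → ∀ s t v w, S.At γ s v → S.At γ t w → (v ∈ A ↔ w ∈ A)) →
    volume A = 0 ∨ volume Aᶜ = 0

/-- the vectors whose lifted geodesic is bounded -/
def Tb : Set (ℂ × ℝ) := {v | ∀ γ, S.IsGeodesic γ → S.At γ 0 v → Bornology.IsBounded (range γ)}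

/-- the vectors whose lifted geodesic tends to infinity, in both directions -/
def Tp : Set (ℂ × ℝ) :=
  {v | ∀ γ, S.IsGeodesic γ → S.At γ 0 v → Tendsto (fun t => ‖γ t‖) (cocompact ℝ) atTop}

/-- the remaining vectors -/
def Ti : Set (ℂ × ℝ) := (S.Tb ∪ S.Tp)ᶜ

/-- the unit tangent vectors with base point in the fundamental parallelogram and `0 ≤ θ < 2π` -/
def box : Set (ℂ × ℝ) :=
  {v | (∃ x ∈ Ico (0 : ℝ) 1, ∃ y ∈ Ico (0 : ℝ) 1, v.1 = x * S.w₁ + y * S.w₂) ∧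
    v.2 ∈ Ico (0 : ℝ) (2 * Real.pi)}

end Torus

/-- the pairs of times at which two curves cross transversally -/
def Crossings (γ₁ γ₂ : ℝ → ℂ) : Set (ℝ × ℝ) :=
  {p | γ₁ p.1 = γ₂ p.2 ∧ (deriv γ₁ p.1 * (starRingEnd ℂ) (deriv γ₂ p.2)).im ≠ 0}

/-- the sector with apex `p` around the direction `e`, of half-angle `arctan k` -/
def sector (p e : ℂ) (k : ℝ) : Set ℂ :=
  {z | ∃ x y : ℝ, 0 ≤ x ∧ |y| ≤ k * x ∧ z = p + (x + y * Complex.I) * e}

/-- the half-strip of width `2w` in the direction `e` with base point `p` -/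
def halfStrip (p e : ℂ) (w : ℝ) : Set ℂ :=
  {z | ∃ x y : ℝ, 0 ≤ x ∧ |y| ≤ w ∧ z = p + (x + y * Complex.I) * e}

/-- The statement of the theorem. -/
def Statement : Prop :=
  ∀ S : Torus, S.Ergodic →
    (∀ v, ∃! γ, S.IsGeodesic γ ∧ S.At γ 0 v) ∧
    volume S.Tb = 0 ∧
    (volume S.Tiᶜ = 0 ∨
      volume S.Tpᶜ = 0 ∧
      (∀ᵐ v : ℂ × ℝ, ∀ γ, S.IsGeodesic γ → S.At γ 0 v →
        ∀ p e k, ‖e‖ = 1 → 0 < k → ∃ t, γ t ∈ sector p e k) ∧
      (∀ e : ℂ, ‖e‖ = 1 → ∀ᵐ v : ℂ × ℝ, ∀ γ, S.IsGeodesic γ → S.At γ 0 v →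
        ∀ p w, 0 < w → ∃ t, γ t ∈ halfStrip p e w) ∧
      (∀ᵐ p : (ℂ × ℝ) × (ℂ × ℝ), ∀ γ₁ γ₂, S.IsGeodesic γ₁ → S.At γ₁ 0 p.1 →
        S.IsGeodesic γ₂ → S.At γ₂ 0 p.2 →
          Crossings γ₁ γ₂ = ∅ ∨ (Crossings γ₁ γ₂).Infinite) ∧
      (∀ ε : ℝ, 0 < ε → ∃ c > (0 : ℝ), ∃ T₀ : ℝ, ∀ T ≥ T₀,
        volume {q : ℝ × (ℂ × ℝ) | q.1 ∈ Icc 0 T ∧ q.2 ∈ S.box ∧
          ∃ γ, S.IsGeodesic γ ∧ S.At γ 0 q.2 ∧ ‖γ q.1 - γ 0‖ ≤ c * Real.sqrt T} ≤
            ENNReal.ofReal (ε * T)))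

/-! ## The flow -/

/-- the Liouville measure on the cover -/
def Torus.m (S : Torus) : Measure (ℂ × ℝ) :=
  (volume : Measure (ℂ × ℝ)).withDensity (fun v => ENNReal.ofReal (Real.exp (2 * S.u v.1)))

/-- invariance under the periods and under `θ ↦ θ + 2π` -/
structure Torus.Inv (S : Torus) {α : Type*} (H : ℂ × ℝ → α) : Prop where
  inv₁ : ∀ v : ℂ × ℝ, H (v.1 + S.w₁, v.2) = H v
  inv₂ : ∀ v : ℂ × ℝ, H (v.1 + S.w₂, v.2) = H v
  inv₃ : ∀ v : ℂ × ℝ, H (v.1, v.2 + 2 * Real.pi) = H v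

/-- the geodesic flow of the plane, in the coordinates `(z, θ)` -/
structure Flow (S : Torus) where
  φ : ℝ → ℂ × ℝ → ℂ × ℝ
  zero : ∀ v, φ 0 v = v
  add : ∀ s t v, φ (s + t) v = φ s (φ t v)
  cont : Continuous (fun p : ℝ × (ℂ × ℝ) => φ p.1 p.2)
  geod : ∀ v, S.IsGeodesic (fun t => (φ t v).1)
  vel : ∀ v t, HasDerivAt (fun t => (φ t v).1)
    ((Real.exp (-S.u (φ t v).1) : ℂ) * Complex.exp ((φ t v).2 * Complex.I)) t
  uniq : ∀ γ v, S.IsGeodesic γ → S.At γ 0 v → γ = fun t => (φ t v).1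
  per₁ : ∀ t v, φ t (v.1 + S.w₁, v.2) = ((φ t v).1 + S.w₁, (φ t v).2)
  per₂ : ∀ t v, φ t (v.1 + S.w₂, v.2) = ((φ t v).1 + S.w₂, (φ t v).2)
  per₃ : ∀ t v, φ t (v.1, v.2 + 2 * Real.pi) = ((φ t v).1, (φ t v).2 + 2 * Real.pi)
  mp : ∀ t, MeasurePreserving (φ t) S.m S.m

variable {S : Torus}

/-- the displacement of the lifted geodesic -/
def Flow.D (Φ : Flow S) (t : ℝ) (v : ℂ × ℝ) : ℂ := (Φ.φ t v).1 - v.1

/-- the vectors whose geodesic never meets the part `x ≥ M` of the half-strip in the direction `e`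
that starts at its base point -/
def Flow.Wst (Φ : Flow S) (e : ℂ) (M w : ℝ) : Set (ℂ × ℝ) :=
  {v | ∀ t, ¬(M ≤ (Φ.D t v / e).re ∧ |(Φ.D t v / e).im| ≤ w)}

end

end Pool.Agent.ET
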