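import Mathlib
import Pool.Agent.Lib_helper25.ET.Defs

set_option autoImplicit false

namespace Pool.Agent.ET

open MeasureTheory Filter Topology Set
open scoped ContDiff ENNReal

noncomputable section

variable {S : Torus}

theorem Flow.cont_t (Φ : Flow S) (v : ℂ × ℝ) : Continuous (fun t => Φ.φ t v) :=
  Φ.cont.comp (by fun_prop : Continuous (fun t : ℝ => (t, v)))

theorem Flow.cont_v (Φ : Flow S) (t : ℝ) : Continuous (Φ.φ t) :=
  Φ.cont.comp (by fun_prop : Continuous (fun v : ℂ × ℝ => (t, v)))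

theorem Flow.D_cont (Φ : Flow S) : Continuous (fun p : ℝ × (ℂ × ℝ) => Φ.D p.1 p.2) := by
  unfold Flow.D
  exact Φ.cont.fst.sub (by fun_prop)

theorem Flow.D_cont_t (Φ : Flow S) (v : ℂ × ℝ) : Continuous (fun t => Φ.D t v) :=
  Φ.D_cont.comp (by fun_prop : Continuous (fun t : ℝ => (t, v)))

theorem Flow.D_cont_v (Φ : Flow S) (t : ℝ) : Continuous (Φ.D t) :=
  Φ.D_cont.comp (by fun_prop : Continuous (fun v : ℂ × ℝ => (t, v)))

@[simp] theorem Flow.D_zero (Φ : Flow S) (v : ℂ × ℝ) : Φ.D 0 v = 0 := by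
  simp [Flow.D, Φ.zero]

/-- the cocycle identity -/
theorem Flow.D_add (Φ : Flow S) (s t : ℝ) (v : ℂ × ℝ) :
    Φ.D (s + t) v = Φ.D s (Φ.φ t v) + Φ.D t v := by
  simp [Flow.D, Φ.add]

theorem Flow.D_neg (Φ : Flow S) (t : ℝ) (v : ℂ × ℝ) : Φ.D (-t) (Φ.φ t v) = -Φ.D t v := by
  have h := Φ.D_add (-t) t v
  rw [neg_add_cancel, Φ.D_zero] at h
  exact eq_neg_of_add_eq_zero_left h.symm

/-- the difference of two positions -/
theorem Flow.D_sub (Φ : Flow S) (s t : ℝ) (v : ℂ × ℝ) :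
    Φ.D (s - t) (Φ.φ t v) = Φ.D s v - Φ.D t v := by
  have h := Φ.D_add (s - t) t v
  rw [sub_add_cancel] at h
  rw [h]
  ring

theorem Flow.pos (Φ : Flow S) (t : ℝ) (v : ℂ × ℝ) : (Φ.φ t v).1 = v.1 + Φ.D t v := by
  simp [Flow.D]

theorem Flow.D_inv (Φ : Flow S) (t : ℝ) : S.Inv (Φ.D t) where
  inv₁ v := by simp [Flow.D, Φ.per₁]
  inv₂ v := by simp [Flow.D, Φ.per₂]
  inv₃ v := by simp [Flow.D, Φ.per₃]

theorem Torus.Inv.comp {α β : Type*} {H : ℂ × ℝ → α} (h : S.Inv H) (f : α → β) :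
    S.Inv (fun v => f (H v)) where
  inv₁ v := by rw [h.inv₁]
  inv₂ v := by rw [h.inv₂]
  inv₃ v := by rw [h.inv₃]

theorem Torus.Inv.phi {α : Type*} {H : ℂ × ℝ → α} (h : S.Inv H) (Φ : Flow S) (t : ℝ) :
    S.Inv (fun v => H (Φ.φ t v)) where
  inv₁ v := by rw [Φ.per₁, h.inv₁]
  inv₂ v := by rw [Φ.per₂, h.inv₂]
  inv₃ v := by rw [Φ.per₃, h.inv₃]

theorem Torus.Inv.prod {α β : Type*} {H : ℂ × ℝ → α} {K : ℂ × ℝ → β} (h : S.Inv H)
    (k : S.Inv K) : S.Inv (fun v => (H v, K v)) where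
  inv₁ v := by rw [h.inv₁, k.inv₁]
  inv₂ v := by rw [h.inv₂, k.inv₂]
  inv₃ v := by rw [h.inv₃, k.inv₃]

theorem Torus.Inv.all {ι : Type*} {P : ι → ℂ × ℝ → Prop} (h : ∀ i, S.Inv (P i)) :
    S.Inv (fun v => ∀ i, P i v) where
  inv₁ v := by
    have := fun i => (h i).inv₁ v
    simp only [this]
  inv₂ v := by
    have := fun i => (h i).inv₂ v
    simp only [this]
  inv₃ v := by
    have := fun i => (h i).inv₃ v
    simp only [this]

theorem Torus.Inv.ex {ι : Type*} {P : ι → ℂ × ℝ → Prop} (h : ∀ i, S.Inv (P i)) :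
    S.Inv (fun v => ∃ i, P i v) where
  inv₁ v := by
    have := fun i => (h i).inv₁ v
    simp only [this]
  inv₂ v := by
    have := fun i => (h i).inv₂ v
    simp only [this]
  inv₃ v := by
    have := fun i => (h i).inv₃ v
    simp only [this]

end

end Pool.Agent.ET
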