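import Mathlib
import Pool.Agent.Lib_helper25.ET.Base
import Pool.Agent.Lib_helper71.EQM.Odes
import Pool.Agent.Lib_helper71.EQM.DynA

/-! Project ET, block FL: existence of the flow. -/

set_option autoImplicit false

namespace Pool.Agent.ET

open MeasureTheory Filter Topology Set
open scoped ContDiff ENNReal

noncomputable section

/-! ### coordinates in the basis of the periods -/

theorem FL_d_ne (S : Torus) : (S.w₁ * (starRingEnd ℂ) S.w₂).im ≠ 0 := by
  intro h0
  have hi := S.indep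
  rw [LinearIndependent.pair_iff] at hi
  have h1 := hi (Complex.normSq S.w₂) (-(S.w₁ * (starRingEnd ℂ) S.w₂).re) (by
    apply Complex.ext
    · simp [Complex.normSq_apply] at h0 ⊢
      linear_combination (-S.w₂.im) * h0
    · simp [Complex.normSq_apply] at h0 ⊢
      linear_combination S.w₂.re * h0)
  have h2 : S.w₂ = 0 := Complex.normSq_eq_zero.1 h1.1
  have h3 := hi 0 1 (by rw [h2]; simp)
  exact one_ne_zero h3.2

/-- first coordinate -/
def FL_x (S : Torus) (z : ℂ) : ℝ :=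
  (z * (starRingEnd ℂ) S.w₂).im / (S.w₁ * (starRingEnd ℂ) S.w₂).im

/-- second coordinate -/
def FL_y (S : Torus) (z : ℂ) : ℝ :=
  -(z * (starRingEnd ℂ) S.w₁).im / (S.w₁ * (starRingEnd ℂ) S.w₂).im

theorem FL_coord (S : Torus) (z : ℂ) : z = FL_x S z * S.w₁ + FL_y S z * S.w₂ := by
  have h := FL_d_ne S
  unfold FL_x FL_y
  set d := (S.w₁ * (starRingEnd ℂ) S.w₂).im with hd
  have hd' : d = -(S.w₁.re * S.w₂.im) + S.w₁.im * S.w₂.re := by
    rw [hd]; simp
  apply Complex.ext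
  · simp
    field_simp
    rw [hd']; ring
  · simp
    field_simp
    rw [hd']; ring

theorem FL_x_lin (S : Torus) (a b : ℝ) : FL_x S (a * S.w₁ + b * S.w₂) = a := by
  have h := FL_d_ne S
  unfold FL_x
  rw [div_eq_iff h]
  simp
  ring

theorem FL_y_lin (S : Torus) (a b : ℝ) : FL_y S (a * S.w₁ + b * S.w₂) = b := by
  have h := FL_d_ne S
  unfold FL_y
  rw [div_eq_iff h]
  simp
  ring

theorem FL_x_cont (S : Torus) : Continuous (FL_x S) := by
  unfold FL_x
  have : Continuous fun z : ℂ => (z * (starRingEnd ℂ) S.w₂).im :=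
    Complex.continuous_im.comp (continuous_id.mul continuous_const)
  exact this.div_const _

theorem FL_y_cont (S : Torus) : Continuous (FL_y S) := by
  unfold FL_y
  have : Continuous fun z : ℂ => (z * (starRingEnd ℂ) S.w₁).im :=
    Complex.continuous_im.comp (continuous_id.mul continuous_const)
  exact this.neg.div_const _

/-- the periods -/
theorem FL_per (S : Torus) {α : Type*} (f : ℂ → α) (h1 : ∀ z, f (z + S.w₁) = f z)
    (h2 : ∀ z, f (z + S.w₂) = f z) (m n : ℤ) (z : ℂ) :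
    f (z + (m * S.w₁ + n * S.w₂)) = f z := by
  have p1 : Function.Periodic f S.w₁ := h1
  have p2 : Function.Periodic f S.w₂ := h2
  have q1 := p1.int_mul m
  have q2 := p2.int_mul n
  rw [← add_assoc, q2, q1]

/-- the translation lattice -/
def FL_act (S : Torus) (g : Multiplicative (ℤ × ℤ)) (z : ℂ) : ℂ :=
  z + ((g.toAdd.1 : ℂ) * S.w₁ + (g.toAdd.2 : ℂ) * S.w₂)

theorem FL_deriv (S : Torus) (g : Multiplicative (ℤ × ℤ)) (z : ℂ) :
    deriv (FL_act S g) z = 1 := by
  unfold FL_act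
  rw [deriv_add_const]
  exact deriv_id z

/-- the compact parallelogram -/
def FL_K (S : Torus) : Set ℂ :=
  (fun p : ℝ × ℝ => (p.1 : ℂ) * S.w₁ + p.2 * S.w₂) '' (Icc (0 : ℝ) 1 ×ˢ Icc (0 : ℝ) 1)

theorem FL_K_compact (S : Torus) : IsCompact (FL_K S) := by
  apply (isCompact_Icc.prod isCompact_Icc).image
  have h1 : Continuous fun p : ℝ × ℝ => (p.1 : ℂ) := Complex.continuous_ofReal.comp continuous_fst
  have h2 : Continuous fun p : ℝ × ℝ => (p.2 : ℂ) := Complex.continuous_ofReal.comp continuous_snd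
  exact (h1.mul continuous_const).add (h2.mul continuous_const)

theorem FL_K_cov (S : Torus) (z : ℂ) : ∃ m n : ℤ, z + ((m : ℂ) * S.w₁ + n * S.w₂) ∈ FL_K S := by
  refine ⟨-⌊FL_x S z⌋, -⌊FL_y S z⌋, ⟨(Int.fract (FL_x S z), Int.fract (FL_y S z)), ?_, ?_⟩⟩
  · exact ⟨⟨Int.fract_nonneg _, (Int.fract_lt_one _).le⟩, ⟨Int.fract_nonneg _, (Int.fract_lt_one _).le⟩⟩
  · have h := FL_coord S z
    simp only [Int.fract]
    push_cast
    linear_combination (-1 : ℂ) * h

/-- the presentation of the torus -/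
def FL_P (S : Torus) : Pool.Agent.EQ.Pres where
  Ω := univ
  isOpen := isOpen_univ
  conn := isConnected_univ
  u := S.u
  smooth := S.smooth.contDiffOn
  G := Multiplicative (ℤ × ℤ)
  cnt := inferInstanceAs (Countable (ℤ × ℤ))
  act := FL_act S
  act_mem _ _ _ := mem_univ _
  act_one z _ := by simp [FL_act]
  act_mul g h z _ := by
    simp only [FL_act, toAdd_mul, Prod.fst_add, Prod.snd_add]
    push_cast
    ring
  holo g := by
    have : Differentiable ℂ (FL_act S g) := by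
      unfold FL_act
      exact differentiable_id.add_const _
    exact this.differentiableOn
  isom g z _ := by
    rw [FL_deriv]
    simp only [norm_one, Real.log_one, add_zero]
    exact FL_per S S.u S.per₁ S.per₂ _ _ z
  free g z _ h := by
    unfold FL_act at h
    have h1 : ((g.toAdd.1 : ℝ) : ℂ) * S.w₁ + ((g.toAdd.2 : ℝ) : ℂ) * S.w₂ = 0 := by
      have := add_left_cancel (h.trans (add_zero z).symm)
      push_cast
      exact this
    have h2 := FL_x_lin S g.toAdd.1 g.toAdd.2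
    have h3 := FL_y_lin S g.toAdd.1 g.toAdd.2
    rw [h1] at h2 h3
    have hx : (g.toAdd.1 : ℝ) = 0 := by rw [← h2]; simp [FL_x]
    have hy : (g.toAdd.2 : ℝ) = 0 := by rw [← h3]; simp [FL_y]
    apply Multiplicative.toAdd.injective
    apply Prod.ext
    · exact_mod_cast hx
    · exact_mod_cast hy
  proper K _ hK := by
    obtain ⟨C, hC⟩ := (hK.isBounded).exists_norm_le
    -- bounds for the coordinates
    obtain ⟨A, hA⟩ := (isCompact_closedBall (0 : ℂ) (2 * C)).exists_bound_of_continuousOn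
      (FL_x_cont S).continuousOn
    obtain ⟨B, hB⟩ := (isCompact_closedBall (0 : ℂ) (2 * C)).exists_bound_of_continuousOn
      (FL_y_cont S).continuousOn
    have hfin : ((Icc (-⌈A⌉) ⌈A⌉ : Set ℤ) ×ˢ (Icc (-⌈B⌉) ⌈B⌉ : Set ℤ)).Finite :=
      (Set.finite_Icc _ _).prod (Set.finite_Icc _ _)
    refine (hfin.preimage (f := fun g : Multiplicative (ℤ × ℤ) => g.toAdd)
      (Multiplicative.toAdd.injective.injOn)).subset ?_
    rintro g ⟨z, ⟨y, hy, hyz⟩, hz⟩
    unfold FL_act at hyz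
    have h1 : ((g.toAdd.1 : ℝ) : ℂ) * S.w₁ + ((g.toAdd.2 : ℝ) : ℂ) * S.w₂ = z - y := by
      rw [← hyz]; push_cast; ring
    have h2 : z - y ∈ Metric.closedBall (0 : ℂ) (2 * C) := by
      rw [mem_closedBall_zero_iff]
      have := norm_sub_le z y
      linarith [hC z hz, hC y hy]
    have h3 := hA _ h2
    have h4 := hB _ h2
    rw [← h1, FL_x_lin, Real.norm_eq_abs, abs_le] at h3
    rw [← h1, FL_y_lin, Real.norm_eq_abs, abs_le] at h4
    have e1 : (g.toAdd.1 : ℝ) ≤ (⌈A⌉ : ℤ) := h3.2.trans (Int.le_ceil A)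
    have e2 : (-(⌈A⌉ : ℤ) : ℝ) ≤ g.toAdd.1 := by linarith [h3.1, Int.le_ceil A]
    have e3 : (g.toAdd.2 : ℝ) ≤ (⌈B⌉ : ℤ) := h4.2.trans (Int.le_ceil B)
    have e4 : (-(⌈B⌉ : ℤ) : ℝ) ≤ g.toAdd.2 := by linarith [h4.1, Int.le_ceil B]
    exact ⟨⟨by exact_mod_cast e2, by exact_mod_cast e1⟩, ⟨by exact_mod_cast e4, by exact_mod_cast e3⟩⟩
  cocompact := ⟨FL_K S, subset_univ _, FL_K_compact S, fun z _ => by
    obtain ⟨m, n, h⟩ := FL_K_cov S z
    exact ⟨Multiplicative.ofAdd (m, n), h⟩⟩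

theorem FL_mem (S : Torus) (v : ℂ × ℝ) : v ∈ (FL_P S).S := ⟨mem_univ _, mem_univ _⟩

theorem FL_S (S : Torus) : (FL_P S).S = univ := by
  ext v
  simp [FL_mem]

/-! ### the curve in the phase space -/

theorem FL_XX_smooth (S : Torus) : ContDiff ℝ ∞ (Pool.Agent.EQ.XX S.u) := by
  have h := Pool.Agent.EQ.OD.XX_smooth (u := S.u) isOpen_univ S.smooth.contDiffOn
  rw [univ_prod_univ] at h
  exact contDiffOn_univ.1 h

theorem FL_curve_smooth (S : Torus) (c : ℝ → ℂ × ℝ)
    (hc : ∀ t, HasDerivAt c (Pool.Agent.EQ.XX S.u (c t)) t) : ContDiff ℝ ∞ c := by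
  rw [contDiff_infty]
  intro n
  induction n with
  | zero =>
    rw [Nat.cast_zero, contDiff_zero]
    exact continuous_iff_continuousAt.2 fun t => (hc t).continuousAt
  | succ n ih =>
    have : ((n + 1 : ℕ) : WithTop ℕ∞) = (n : WithTop ℕ∞) + 1 := by push_cast; rfl
    rw [this, contDiff_succ_iff_deriv]
    refine ⟨fun t => (hc t).differentiableAt, by simp, ?_⟩
    have h1 : deriv c = fun t => Pool.Agent.EQ.XX S.u (c t) := funext fun t => (hc t).deriv
    rw [h1]
    exact ((FL_XX_smooth S).of_le (by exact_mod_cast le_top)).comp ih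

theorem FL_vel (S : Torus) (c : ℝ → ℂ × ℝ)
    (hc : ∀ t, HasDerivAt c (Pool.Agent.EQ.XX S.u (c t)) t) (t : ℝ) :
    HasDerivAt (fun t => (c t).1)
      ((Real.exp (-S.u (c t).1) : ℂ) * Complex.exp ((c t).2 * Complex.I)) t := (hc t).fst

theorem FL_vel2 (S : Torus) (c : ℝ → ℂ × ℝ)
    (hc : ∀ t, HasDerivAt c (Pool.Agent.EQ.XX S.u (c t)) t) (t : ℝ) :
    HasDerivAt (fun t => (c t).2)
      (Real.exp (-S.u (c t).1) * (-(Pool.Agent.EQ.dx S.u (c t).1) * Real.sin (c t).2 +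
        Pool.Agent.EQ.dy S.u (c t).1 * Real.cos (c t).2)) t := (hc t).snd

theorem FL_exp (t : ℝ) : Complex.exp (t * Complex.I) = ⟨Real.cos t, Real.sin t⟩ :=
  Complex.ext (Complex.exp_ofReal_mul_I_re t) (Complex.exp_ofReal_mul_I_im t)

theorem FL_geod (S : Torus) (c : ℝ → ℂ × ℝ)
    (hc : ∀ t, HasDerivAt c (Pool.Agent.EQ.XX S.u (c t)) t) : S.IsGeodesic (fun t => (c t).1) where
  smooth := contDiff_fst.comp (FL_curve_smooth S c hc)
  unit t := by
    rw [(FL_vel S c hc t).deriv, norm_mul, Complex.norm_exp_ofReal_mul_I, mul_one,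
      Complex.norm_real, Real.norm_of_nonneg (Real.exp_pos _).le, ← Real.exp_add]
    simp
  eq t := by
    have e1 : deriv (fun t => (c t).1) = fun t =>
        ((Real.exp (-S.u (c t).1) : ℝ) : ℂ) * Complex.exp ((c t).2 * Complex.I) :=
      funext fun t => (FL_vel S c hc t).deriv
    have hfd : fderiv ℝ S.u (c t).1 (((Real.exp (-S.u (c t).1) : ℝ) : ℂ) *
        Complex.exp ((c t).2 * Complex.I)) = Real.exp (-S.u (c t).1) *
          (Real.cos (c t).2 * Pool.Agent.EQ.dx S.u (c t).1 +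
            Real.sin (c t).2 * Pool.Agent.EQ.dy S.u (c t).1) := by
      rw [Pool.Agent.EQ.OD.fd_eq, FL_exp, Complex.re_ofReal_mul,
        Complex.im_ofReal_mul]
      ring
    have hu : HasDerivAt (fun t => S.u (c t).1)
        (Real.exp (-S.u (c t).1) *
          (Real.cos (c t).2 * Pool.Agent.EQ.dx S.u (c t).1 +
            Real.sin (c t).2 * Pool.Agent.EQ.dy S.u (c t).1)) t := by
      have h1 : HasFDerivAt S.u (fderiv ℝ S.u (c t).1) (c t).1 :=
        (S.smooth.differentiable (by simp) _).hasFDerivAt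
      have h2 := h1.comp_hasDerivAt t (FL_vel S c hc t)
      rw [hfd] at h2
      exact h2
    have hv2 := FL_vel2 S c hc t
    have hun : HasDerivAt (fun t => -S.u (c t).1)
        (-(Real.exp (-S.u (c t).1) *
          (Real.cos (c t).2 * Pool.Agent.EQ.dx S.u (c t).1 +
            Real.sin (c t).2 * Pool.Agent.EQ.dy S.u (c t).1))) t := hu.neg
    have h2 : HasDerivAt (fun t => ((Real.exp (-S.u (c t).1) : ℝ) : ℂ)) _ t :=
      (hun.exp).ofReal_comp
    have h3 : HasDerivAt (fun t => Complex.exp (((c t).2 : ℂ) * Complex.I)) _ t :=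
      ((hv2.ofReal_comp).mul_const Complex.I).cexp
    have h4 := h2.mul h3
    rw [e1]
    beta_reduce
    rw [hfd]
    have h5 : deriv (fun t => ((Real.exp (-S.u (c t).1) : ℝ) : ℂ) *
        Complex.exp ((c t).2 * Complex.I)) t = _ := h4.deriv
    rw [h5]
    rw [norm_mul, Complex.norm_exp_ofReal_mul_I, mul_one,
      Complex.norm_real, Real.norm_of_nonneg (Real.exp_pos _).le]
    unfold Torus.grad
    change _ = -2 * _ * _ + _ * (((Pool.Agent.EQ.dx S.u (c t).1 : ℝ) : ℂ) +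
      ((Pool.Agent.EQ.dy S.u (c t).1 : ℝ) : ℂ) * Complex.I)
    rw [FL_exp]
    generalize Real.exp (-S.u (c t).1) = E
    generalize (c t).2 = θ
    generalize Pool.Agent.EQ.dx S.u (c t).1 = a
    generalize Pool.Agent.EQ.dy S.u (c t).1 = b
    have hsc := Real.sin_sq_add_cos_sq θ
    generalize Real.sin θ = sn at hsc ⊢
    generalize Real.cos θ = cs at hsc ⊢
    apply Complex.ext
    · simp [pow_two]
      linear_combination (E * E * a) * hsc
    · simp [pow_two]
      linear_combination (E * E * b) * hsc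

/-! ### uniqueness -/

/-- the geodesic equation as a first order system -/
def FL_F (S : Torus) (q : ℂ × ℂ) : ℂ × ℂ :=
  (q.2, -2 * (fderiv ℝ S.u q.1 q.2 : ℂ) * q.2 + (‖q.2‖ ^ 2 : ℝ) * S.grad q.1)

theorem FL_ofReal {E : Type*} [NormedAddCommGroup E] [NormedSpace ℝ E] {f : E → ℝ}
    (hf : ContDiff ℝ 1 f) : ContDiff ℝ 1 (fun x => (f x : ℂ)) :=
  Complex.ofRealCLM.contDiff.comp hf

theorem FL_F_smooth (S : Torus) : ContDiff ℝ 1 (FL_F S) := by
  have h0 : ContDiff ℝ 1 (fderiv ℝ S.u) := by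
    refine S.smooth.fderiv_right ?_
    have h : ((2 : ℕ∞) : WithTop ℕ∞) ≤ ((⊤ : ℕ∞) : WithTop ℕ∞) := WithTop.coe_le_coe.2 le_top
    refine le_trans (le_of_eq ?_) h
    exact one_add_one_eq_two
  have h1 : ContDiff ℝ 1 (fun q : ℂ × ℂ => fderiv ℝ S.u q.1) := h0.comp contDiff_fst
  have h2 : ContDiff ℝ 1 (fun q : ℂ × ℂ => fderiv ℝ S.u q.1 q.2) := h1.clm_apply contDiff_snd
  have h3 : ContDiff ℝ 1 (fun q : ℂ × ℂ => fderiv ℝ S.u q.1 1) := h1.clm_apply contDiff_const
  have h4 : ContDiff ℝ 1 (fun q : ℂ × ℂ => fderiv ℝ S.u q.1 Complex.I) :=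
    h1.clm_apply contDiff_const
  have h5 : ContDiff ℝ 1 (fun q : ℂ × ℂ => ‖q.2‖ ^ 2) := contDiff_snd.norm_sq ℝ
  unfold FL_F Torus.grad
  refine contDiff_snd.prodMk ((((contDiff_const.mul (FL_ofReal h2)).mul contDiff_snd)).add
    ((FL_ofReal h5).mul ((FL_ofReal h3).add ((FL_ofReal h4).mul contDiff_const))))

theorem FL_sol (S : Torus) {γ : ℝ → ℂ} (h : S.IsGeodesic γ) :
    Pool.Agent.EQ.OD.Sol (FL_F S) univ (fun t => (γ t, deriv γ t)) univ := by
  intro t _
  refine ⟨mem_univ _, ?_⟩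
  have h1 : ContDiff ℝ ∞ (deriv γ) := (contDiff_infty_iff_deriv.1 h.smooth).2
  have h2 : HasDerivAt γ (deriv γ t) t := (h.smooth.differentiable (by simp) t).hasDerivAt
  have h3 : HasDerivAt (deriv γ) (deriv (deriv γ) t) t :=
    (h1.differentiable (by simp) t).hasDerivAt
  rw [h.eq t] at h3
  exact h2.prodMk h3

theorem FL_uniq (S : Torus) {γ γ' : ℝ → ℂ} (h : S.IsGeodesic γ) (h' : S.IsGeodesic γ')
    {t₀ : ℝ} (h0 : γ t₀ = γ' t₀) (h1 : deriv γ t₀ = deriv γ' t₀) : γ = γ' := by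
  have key := Pool.Agent.EQ.OD.Sol.unique isOpen_univ (FL_F_smooth S).contDiffOn isOpen_univ
    isPreconnected_univ (FL_sol S h) (FL_sol S h') (mem_univ t₀) (by rw [h0, h1])
  funext t
  exact congrArg Prod.fst (key (mem_univ t))

/-! ### periods of the vector field -/

theorem FL_fd_per (S : Torus) (w : ℂ) (hw : ∀ z, S.u (z + w) = S.u z) (z : ℂ) :
    fderiv ℝ S.u (z + w) = fderiv ℝ S.u z := by
  rw [← fderiv_comp_add_right]
  congr 1
  funext x
  exact hw x

theorem FL_XX_per (S : Torus) (w : ℂ) (hw : ∀ z, S.u (z + w) = S.u z) (v : ℂ × ℝ) :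
    Pool.Agent.EQ.XX S.u (v.1 + w, v.2) = Pool.Agent.EQ.XX S.u v := by
  unfold Pool.Agent.EQ.XX Pool.Agent.EQ.dx Pool.Agent.EQ.dy
  simp only [hw, FL_fd_per S w hw]

theorem FL_phi_per (S : Torus) (Φ : Pool.Agent.EQ.GFlow (FL_P S)) (w : ℂ)
    (hw : ∀ z, S.u (z + w) = S.u z) (t : ℝ) (v : ℂ × ℝ) :
    Φ.φ t (v.1 + w, v.2) = ((Φ.φ t v).1 + w, (Φ.φ t v).2) := by
  have h := Φ.uniq (fun t => ((Φ.φ t v).1 + w, (Φ.φ t v).2)) (fun t => by
    refine ⟨FL_mem S _, ?_⟩
    have h1 : HasDerivAt (fun s => Φ.φ s v) (Pool.Agent.EQ.XX S.u (Φ.φ t v)) t :=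
      Φ.deriv_t t v (FL_mem S v)
    have h2 : HasDerivAt (fun t => ((Φ.φ t v).1 + w, (Φ.φ t v).2))
        (Pool.Agent.EQ.XX S.u (Φ.φ t v)) t := (h1.fst.add_const w).prodMk h1.snd
    rw [← FL_XX_per S w hw (Φ.φ t v)] at h2
    exact h2) t 0
  simp only [add_zero, Φ.zero] at h
  exact h.symm

/-- FL: from Pool.Agent.EQ.exists_gflow, m_phi (Lib_helper71 EQM Odes, DynA) -/
theorem exists_flow (S : Torus) : Nonempty (Flow S) := by
  obtain ⟨Φ⟩ := Pool.Agent.EQ.exists_gflow (FL_P S)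
  have hd : ∀ v t, HasDerivAt (fun s => Φ.φ s v) (Pool.Agent.EQ.XX S.u (Φ.φ t v)) t :=
    fun v t => Φ.deriv_t t v (FL_mem S v)
  have hg : ∀ v, S.IsGeodesic (fun t => (Φ.φ t v).1) := fun v => FL_geod S _ (hd v)
  refine ⟨{
    φ := Φ.φ
    zero := Φ.zero
    add := Φ.add
    cont := ?_
    geod := hg
    vel := fun v t => FL_vel S _ (hd v) t
    uniq := ?_
    per₁ := fun t v => FL_phi_per S Φ S.w₁ S.per₁ t v
    per₂ := fun t v => FL_phi_per S Φ S.w₂ S.per₂ t v
    per₃ := fun t v => Φ.per t v (FL_mem S v)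
    mp := ?_ }⟩
  · have h := Φ.smooth.continuousOn
    rw [FL_S, univ_prod_univ] at h
    exact continuousOn_univ.1 h
  · intro γ v h1 h2
    refine FL_uniq S h1 (hg v) (t₀ := 0) ?_ ?_
    · rw [h2.1, Φ.zero]
    · rw [h2.2, (FL_vel S _ (hd v) 0).deriv, Φ.zero]
  · intro t
    have h := Pool.Agent.EQ.m_phi (FL_P S) Φ t
    have h1 : (FL_P S).m = S.m := by
      unfold Pool.Agent.EQ.Pres.m Torus.m
      rw [FL_S, Measure.restrict_univ]
      rfl
    rwa [h1] at h

theorem FL_speed (S : Torus) : ∃ C > (0 : ℝ), ∀ z, Real.exp (-S.u z) ≤ C := by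
  obtain ⟨C, hC⟩ := (FL_K_compact S).exists_bound_of_continuousOn
    (f := fun z => Real.exp (-S.u z)) (Real.continuous_exp.comp S.smooth.continuous.neg).continuousOn
  refine ⟨max C 1, by positivity, fun z => ?_⟩
  obtain ⟨m, n, h⟩ := FL_K_cov S z
  have h1 := hC _ h
  rw [FL_per S S.u S.per₁ S.per₂, Real.norm_of_nonneg (Real.exp_pos _).le] at h1
  exact h1.trans (le_max_left _ _)

/-- BD: the displacement is bounded by `C |t|` -/
theorem D_le {S : Torus} (Φ : Flow S) : ∃ C > (0 : ℝ), ∀ t v, ‖Φ.D t v‖ ≤ C * |t| := by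
  obtain ⟨C, hC0, hC⟩ := FL_speed S
  refine ⟨C, hC0, fun t v => ?_⟩
  have h := Convex.norm_image_sub_le_of_norm_hasDerivWithin_le (𝕜 := ℝ)
    (f := fun t => (Φ.φ t v).1) (s := univ) (C := C) (x := 0) (y := t)
    (fun s _ => (Φ.vel v s).hasDerivWithinAt) (fun s _ => by
      rw [norm_mul, Complex.norm_exp_ofReal_mul_I, mul_one, Complex.norm_real,
        Real.norm_of_nonneg (Real.exp_pos _).le]
      exact hC _) convex_univ (mem_univ _) (mem_univ _)
  rw [sub_zero, Real.norm_eq_abs, Φ.zero] at h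
  exact h

end

end Pool.Agent.ET
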