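import Mathlib
import Pool.Agent.Lib_helper25.ET.Base
import Pool.Agent.Lib_helper25.ET.FL
import Pool.Agent.Lib_helper42.ET.IV
import Pool.Agent.Lib_helper94.ET.ER
import Pool.Agent.Lib_helper9.ET.NB
import Pool.Agent.Lib_helper66.ET.X
import Pool.Agent.Lib_helper92.ET.H1
import Pool.Agent.Lib_helper48.ET.H2
import Pool.Agent.Lib_helper92.ET.H3
import Pool.Agent.Lib_helper99.ET.DF

set_option autoImplicit false

namespace Pool.Agent.ET

open MeasureTheory Filter Topology Set
open scoped ContDiff ENNReal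

noncomputable section

theorem main : Statement := by
  intro S h
  obtain ⟨Φ⟩ := exists_flow S
  have hat : ∀ v, S.At (fun t => (Φ.φ t v).1) 0 v := by
    intro v
    refine ⟨by simp [Φ.zero], ?_⟩
    have := (Φ.vel v 0).deriv
    rw [this, Φ.zero]
  have hu : ∀ v γ, S.IsGeodesic γ → S.At γ 0 v → γ = fun t => (Φ.φ t v).1 :=
    fun v γ h1 h2 => Φ.uniq γ v h1 h2
  refine ⟨fun v => ⟨fun t => (Φ.φ t v).1, ⟨Φ.geod v, hat v⟩, fun γ hγ => hu v γ hγ.1 hγ.2⟩,
    Tb_null h Φ, ?_⟩
  · by_cases hp : volume S.Tp = 0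
    · left
      rw [Torus.Ti, compl_compl]
      exact measure_union_null (Tb_null h Φ) hp
    · right
      have hp' : volume S.Tpᶜ = 0 := (Tp_01 h Φ).resolve_left hp
      refine ⟨hp', ?_, ?_, ?_, ?_⟩
      · filter_upwards [sectors h Φ hp] with v hv γ h1 h2 p e k he hk
        rw [hu _ _ h1 h2]
        exact hv p e k he hk
      · intro e he
        filter_upwards [strips h Φ hp e he] with v hv γ h1 h2 p w hw
        rw [hu _ _ h1 h2]
        exact hv p w hw
      · filter_upwards [crossing h Φ] with p hp γ₁ γ₂ h1 h2 h3 h4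
        rw [hu _ _ h1 h2, hu _ _ h3 h4]
        exact hp
      · intro ε hε
        obtain ⟨c, hc, T₀, hT⟩ := diffusive h Φ hp' ε hε
        refine ⟨c, hc, T₀, fun T hT' => le_trans (measure_mono ?_) (hT T hT')⟩
        rintro q ⟨h1, h2, γ, h3, h4, h5⟩
        refine ⟨h1, h2, ?_⟩
        rw [hu _ _ h3 h4] at h5
        simpa [Flow.D, Φ.zero] using h5

end

end Pool.Agent.ET
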